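import Pool.Agent.H14.HF.Gen
import Pool.Graph.R_pool_sql_team_seeded_63374d34.N410.DC.Part
import Pool.Graph.R_pool_sql_team_seeded_63374d34.N393.C13.All
import Pool.Graph.R_pool_sql_team_seeded_ab47071d.TH362.FO.Alt
import Pool.Graph.R_pool_sql_team_seeded_9f66d723.W5h8.M9D

set_option autoImplicit false
set_option linter.unusedSectionVars false
set_option linter.unusedVariables false

/-!
# `1/2`-flow-pairs: the classes
-/

namespace Pool.Agent.H14.HF

open Finset Relation Pool.Agent.H160R2.HF Pool.Agent.H179R3.HF Pool.Agent.TH499.NF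
open Pool.Agent.R129.Hfp Pool.Agent.H789.HF Pool.Agent
open Pool.Agent.TH362.TF (nb padj IsPQ PQ Joins N1 NZ Ends)
open Pool.Agent.R140.PK (cu mem_cu three_cut ctr MinP exists_MinP ConnS St FC)

variable {V E : Type} [Fintype V] [DecidableEq V] [Fintype E] [DecidableEq E]

/-- no circuits with more than thirteen vertices -/
theorem pr_circ (s t : E → V) (hn : N1 s t univ) (h : ∀ n, 13 < n → ∀ v : ℕ → V,
    ¬ ((∀ i < n, ∀ j < n, v i = v j → i = j) ∧ ∀ i < n, ∃ e,
      (s e = v i ∧ t e = v ((i + 1) % n)) ∨ (s e = v ((i + 1) % n) ∧ t e = v i))) : Pr s t :=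
  pr_gen s t hn fun _ hπ h1 =>
    N393.C13.flow13 N393.C13.leaves _ _ h1 ((N393.C13.NoLong.of h).map N393.C13.leaves hπ)

/-- partitions with at least 18 odd classes -/
theorem pr_part (s t : E → V) (hn : N1 s t univ) (h : N410.DC.GCl N410.DC.PartN s t) : Pr s t :=
  pr_gen s t hn fun π _ h1 => (h.map N410.DC.inh_part π).flow N410.DC.inh_part h1

/-- no thirteen disjoint sets with different boundaries with three edges -/
theorem pr_fam (s t : E → V) (hn : N1 s t univ) (h : ¬ TH362.FO.Fam s t univ 13) : Pr s t :=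
  pr_gen s t hn fun π _ h1 => TH362.FO.alt _ _ univ h1 (Or.inr fun hf => h
    (TH362.FO.Alt.fam_quot (S' := univ) (Subset.refl _) (fun e h h' => absurd h h') hf))

/-- no nine disjoint edges outside of the short circuits -/
theorem pr_nine (s t : E → V) (hn : N1 s t univ)
    (hm : ¬ ∃ f : Fin 9 → E, (∀ i, ∀ C : Finset E,
        (∀ v, Even (Pool.Agent.TH362.TF.deg s t C v)) → f i ∈ C → 5 ≤ C.card) ∧
      ∀ i j, i ≠ j → Disjoint ({s (f i), t (f i)} : Set V) {s (f j), t (f j)}) : Pr s t := by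
  refine pr_gen s t hn fun π _ h1 => W5h8.M9.match_nine_short _ _ univ h1 ?_
  rintro ⟨f, hf, hd⟩
  refine hm ⟨f, fun i C hC hi => (hf i).2 C (subset_univ _) ?_ hi, fun i j hij => ?_⟩
  · exact fun w => W5h8.M9.even_quot (s := s) (t := t) (C := C) hC π w
  · have h2 := hd i j hij
    rw [Set.disjoint_left] at h2 ⊢
    rintro x (rfl | rfl) (h3 | h3)
    · exact h2 (Or.inl rfl) (Or.inl (congrArg π h3))
    · exact h2 (Or.inl rfl) (Or.inr (congrArg π h3))
    · exact h2 (Or.inr rfl) (Or.inl (congrArg π h3))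
    · exact h2 (Or.inr rfl) (Or.inr (congrArg π h3))

end Pool.Agent.H14.HF
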