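import Pool.Graph.R_pool_sql_team_seeded_620a6dc7.H789.HF.P8

set_option autoImplicit false
set_option linter.unusedSectionVars false
set_option linter.unusedVariables false

/-!
# `1/2`-flow-pairs: gluing along cuts with three edges, and classes closed under contractions
-/

namespace Pool.Agent.H14.HF

open Finset Relation Pool.Agent.H160R2.HF Pool.Agent.H179R3.HF Pool.Agent.TH499.NF
open Pool.Agent.R129.Hfp Pool.Agent.H789.HF
open Pool.Agent.TH362.TF (nb padj IsPQ PQ Joins N1 NZ Ends)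
open Pool.Agent.R140.PK (cu mem_cu three_cut ctr MinP exists_MinP ConnS St FC)

variable {V E : Type} [Fintype V] [DecidableEq V] [Fintype E] [DecidableEq E]

/-- **Classes closed under contractions of connected sets.**  If all contractions of connected sets
have a nowhere-zero flow or a Petersen quotient, then the graph has the property `Pr`. -/
theorem pr_gen (s t : E → V) (hn : N1 s t univ)
    (H : ∀ π : V → V, FC s t univ π → N1 (fun e => π (s e)) (fun e => π (t e)) univ →
      NZ (fun e => π (s e)) (fun e => π (t e)) univ ∨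
        PQ (fun e => π (s e)) (fun e => π (t e)) univ) :
    Pr s t := by
  classical
  by_contra hcon
  obtain ⟨π, hπ, hM⟩ := exists_MinP Pr s t hn hcon
  have hb : ∀ X : Finset V,
      ((⟨fun e => π (s e), fun e => π (t e)⟩ : OrGraph V E).cut X).card ≠ 1 := by
    intro X
    rw [cut_eq_cu]
    exact hM.n1 _
  apply hM.np
  rcases H π hπ hM.n1 with h1 | ⟨κ, hκ⟩
  · have h2 : NzK (⟨fun e => π (s e), fun e => π (t e)⟩ : OrGraph V E) := nzK_of h1
    exact ⟨pair_of_nz hb h2, flex_of_nz h2⟩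
  · exact pr_of_pq (G := ⟨fun e => π (s e), fun e => π (t e)⟩) hκ
      fun κ' hκ' c hc k => MinP.side hM hκ' hc k

/-- the map which contracts the complement of `X` -/
def inn (X : Finset V) (a : V) (x : V) : V := if x ∈ X then x else a

/-- the map which contracts `X` -/
def out (X : Finset V) (b : V) (x : V) : V := if x ∈ X then b else x

theorem inn_pre {X : Finset V} {a : V} (ha : a ∉ X) {y : V} (hy : y ∈ X) :
    univ.filter (fun x => inn X a x = y) = {y} := by
  ext x
  rw [mem_filter, mem_singleton]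
  simp only [mem_univ, true_and]
  unfold inn
  constructor
  · intro h
    split_ifs at h with h1
    · exact h
    · exact absurd (h ▸ hy) ha
  · rintro rfl
    rw [if_pos hy]

theorem inn_pre_a {X : Finset V} {a : V} (ha : a ∉ X) :
    univ.filter (fun x => inn X a x = a) = Xᶜ := by
  ext x
  rw [mem_filter, mem_compl]
  simp only [mem_univ, true_and]
  unfold inn
  constructor
  · intro h
    split_ifs at h with h1
    · exact absurd (h ▸ h1) ha
    · exact h1
  · intro h
    rw [if_neg h]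

theorem out_pre {X : Finset V} {b : V} (hb : b ∈ X) {y : V} (hy : y ∉ X) :
    univ.filter (fun x => out X b x = y) = {y} := by
  ext x
  rw [mem_filter, mem_singleton]
  simp only [mem_univ, true_and]
  unfold out
  constructor
  · intro h
    split_ifs at h with h1
    · exact absurd (h ▸ hb) hy
    · exact h
  · rintro rfl
    rw [if_neg hy]

theorem out_pre_b {X : Finset V} {b : V} (hb : b ∈ X) :
    univ.filter (fun x => out X b x = b) = X := by
  ext x
  rw [mem_filter]
  simp only [mem_univ, true_and]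
  unfold out
  constructor
  · intro h
    split_ifs at h with h1
    · exact h1
    · exact absurd (h ▸ hb) h1
  · intro h
    rw [if_pos h]

theorem mp_cut_single {G : OrGraph V E} {ρ : V → V} {y : V} {Y : Finset V}
    (h : univ.filter (fun x => ρ x = y) = Y) : (mp G ρ).cut {y} = G.cut Y := by
  rw [cut_mp]
  congr 1
  rw [← h]
  ext x
  simp

/-- **Gluing along a cut with three edges**, the pair on the side `X` is given. -/
theorem glue_flex {G : OrGraph V E} {X : Finset V} (hX3 : (G.cut X).card = 3) {a b : V}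
    (ha : a ∉ X) (hb : b ∈ X) (hF : FlexAt (mp G (out X b)) b) {a₂ a₄ : E → ℤ}
    (hp : (mp G (inn X a)).IsHalfFlowPair a₂ a₄) :
    ∃ φ₂ φ₄ : E → ℤ, G.IsHalfFlowPair φ₂ φ₄ ∧
      ∀ e, (G.t e ∈ X ∨ G.h e ∈ X) → φ₂ e = a₂ e ∧ φ₄ e = a₄ e := by
  classical
  have hcut : (mp G (out X b)).cut {b} = G.cut X := mp_cut_single (out_pre_b hb)
  have hn : ∀ φ : E → ℤ, (mp G (inn X a)).IsFlow φ → ∀ y ∈ X, net G.t G.h φ y = 0 := by
    intro φ hφ y hy
    have h := net_of_isFlow hφ y
    rw [net_mp, inn_pre ha hy, Finset.sum_singleton] at h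
    exact h
  have hsum : ∀ φ : E → ℤ, (mp G (inn X a)).IsFlow φ →
      ∑ e ∈ (mp G (out X b)).cut {b}, (if (mp G (out X b)).t e = b then φ e else - φ e) = 0 := by
    intro φ hφ
    have h1 := net_star (mp G (out X b)) φ b
    have h2 : net (mp G (out X b)).t (mp G (out X b)).h φ b = 0 := by
      rw [net_mp, out_pre_b hb]
      exact Finset.sum_eq_zero fun x hx => hn φ hφ x hx
    rw [h2] at h1
    rw [h1]
    refine sum_congr rfl fun e _ => ?_
    unfold og
    split_ifs <;> ring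
  obtain ⟨q1, q2, q3⟩ := (pair_iff_ok _ _ _).1 hp
  obtain ⟨φ₂, φ₄, hq, hval⟩ := hF (by rw [hcut]; exact hX3) a₂ a₄ (hsum a₂ hp.1.2)
    (hsum a₄ hp.2.1.2) (fun e _ => q3 e)
  rw [hcut] at hval
  have hm : ∀ φ : E → ℤ, (mp G (out X b)).IsFlow φ → ∀ y, y ∉ X → net G.t G.h φ y = 0 := by
    intro φ hφ y hy
    have h := net_of_isFlow hφ y
    rw [net_mp, out_pre hb hy, Finset.sum_singleton] at h
    exact h
  have hcutm : ∀ e, (G.t e ∈ X ∨ G.h e ∈ X) → ¬ (G.t e ∈ X ∧ G.h e ∈ X) → e ∈ G.cut X := by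
    intro e he hne
    rw [mem_cut]
    tauto
  have hin : ∀ (α φ : E → ℤ) (x : V), (∀ e ∈ G.cut X, φ e = α e) →
      (∀ y ∈ X, net G.t G.h α y = 0) → (∀ y, y ∉ X → net G.t G.h φ y = 0) →
      net G.t G.h (fun e => if G.t e ∈ X ∧ G.h e ∈ X then α e else φ e) x = 0 := by
    intro α φ x h1 h2 h3
    by_cases hx : x ∈ X
    · rw [← h2 x hx]
      refine net_congr G fun e he => ?_
      show (if G.t e ∈ X ∧ G.h e ∈ X then α e else φ e) = α e
      split_ifs with h
      · rfl
      · refine h1 e (hcutm e ?_ h)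
        rcases he with he | he
        · exact Or.inl (he ▸ hx)
        · exact Or.inr (he ▸ hx)
    · rw [← h3 x hx]
      refine net_congr G fun e he => ?_
      show (if G.t e ∈ X ∧ G.h e ∈ X then α e else φ e) = φ e
      rw [if_neg]
      rintro ⟨h1, h2⟩
      rcases he with he | he
      · exact hx (he ▸ h1)
      · exact hx (he ▸ h2)
  refine ⟨fun e => if G.t e ∈ X ∧ G.h e ∈ X then a₂ e else φ₂ e,
    fun e => if G.t e ∈ X ∧ G.h e ∈ X then a₄ e else φ₄ e,
    ⟨⟨fun e => ?_, G.isFlow_of_net fun x => ?_⟩, ⟨fun e => ?_, G.isFlow_of_net fun x => ?_⟩,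
    fun e he => ?_⟩, fun e he => ?_⟩
  · show |if G.t e ∈ X ∧ G.h e ∈ X then a₂ e else φ₂ e| ≤ _
    split_ifs
    · exact hp.1.1 e
    · exact hq.1.1 e
  · exact hin a₂ φ₂ x (fun e he => (hval e he).1) (hn a₂ hp.1.2) (hm φ₂ hq.1.2)
  · show |if G.t e ∈ X ∧ G.h e ∈ X then a₄ e else φ₄ e| ≤ _
    split_ifs
    · exact hp.2.1.1 e
    · exact hq.2.1.1 e
  · exact hin a₄ φ₄ x (fun e he => (hval e he).2) (hn a₄ hp.2.1.2) (hm φ₄ hq.2.1.2)
  · have he' : (if G.t e ∈ X ∧ G.h e ∈ X then a₂ e else φ₂ e) = 0 := he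
    show 2 ≤ |if G.t e ∈ X ∧ G.h e ∈ X then a₄ e else φ₄ e|
    split_ifs at he' ⊢
    · exact hp.2.2 e he'
    · exact hq.2.2 e he'
  · show (if G.t e ∈ X ∧ G.h e ∈ X then a₂ e else φ₂ e) = a₂ e ∧
      (if G.t e ∈ X ∧ G.h e ∈ X then a₄ e else φ₄ e) = a₄ e
    split_ifs with h
    · exact ⟨rfl, rfl⟩
    · exact hval e (hcutm e he h)

/-- pairs with all admissible values at the vertices with three edges -/
def Fl (G : OrGraph V E) : Prop :=
  (∃ φ₂ φ₄ : E → ℤ, G.IsHalfFlowPair φ₂ φ₄) ∧ ∀ w, FlexAt G w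

theorem inn_compl (X : Finset V) (a : V) : inn X a = out Xᶜ a := by
  funext x
  unfold inn out
  by_cases h : x ∈ X
  · rw [if_pos h, if_neg (by simpa using h)]
  · rw [if_neg h, if_pos (by simpa using h)]

theorem out_compl (X : Finset V) (b : V) : out X b = inn Xᶜ b := by
  rw [inn_compl, compl_compl]

theorem flex_side {G : OrGraph V E} {X : Finset V} (hX3 : (G.cut X).card = 3) {a b : V}
    (ha : a ∉ X) (hb : b ∈ X) (h1 : Fl (mp G (inn X a))) (h2 : Fl (mp G (out X b))) {w : V}
    (hw : w ∈ X) : FlexAt G w := by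
  intro h3 α β hα hβ hok
  have hcut : (mp G (inn X a)).cut {w} = G.cut {w} := mp_cut_single (inn_pre ha hw)
  have hsum : ∀ γ : E → ℤ, ∑ e ∈ (mp G (inn X a)).cut {w},
      (if (mp G (inn X a)).t e = w then γ e else - γ e) =
      ∑ e ∈ G.cut {w}, (if G.t e = w then γ e else - γ e) := by
    intro γ
    rw [hcut]
    refine sum_congr rfl fun e _ => ?_
    have h4 : (mp G (inn X a)).t e = w ↔ G.t e = w := by
      have h5 := inn_pre (V := V) ha hw
      have h6 : G.t e ∈ univ.filter (fun x => inn X a x = w) ↔ G.t e ∈ ({w} : Finset V) := by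
        rw [h5]
      rw [mem_filter, mem_singleton] at h6
      exact ⟨fun h => h6.1 ⟨mem_univ _, h⟩, fun h => (h6.2 h).2⟩
    by_cases h5 : G.t e = w
    · rw [if_pos h5, if_pos (h4.2 h5)]
    · rw [if_neg h5, if_neg (fun h => h5 (h4.1 h))]
  obtain ⟨a₂, a₄, hp, hv⟩ := h1.2 w (by rw [hcut]; exact h3) α β (by rw [hsum]; exact hα)
    (by rw [hsum]; exact hβ) (by rw [hcut]; exact hok)
  rw [hcut] at hv
  obtain ⟨φ₂, φ₄, hq, hq'⟩ := glue_flex hX3 ha hb (h2.2 b) hp
  refine ⟨φ₂, φ₄, hq, fun e he => ?_⟩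
  have h6 : G.t e ∈ X ∨ G.h e ∈ X := by
    rw [mem_cut, mem_singleton, mem_singleton] at he
    by_cases h7 : G.t e = w
    · exact Or.inl (h7 ▸ hw)
    · have h8 : G.h e = w := by
        by_contra h9
        exact he ⟨fun h => absurd h h7, fun h => absurd h h9⟩
      exact Or.inr (h8 ▸ hw)
  obtain ⟨h7, h8⟩ := hq' e h6
  obtain ⟨h9, h10⟩ := hv e he
  exact ⟨h7.trans h9, h8.trans h10⟩

/-- **The property `Fl` passes to sums along cuts with three edges.** -/
theorem fl_glue {G : OrGraph V E} {X : Finset V} (hX3 : (G.cut X).card = 3) {a b : V}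
    (ha : a ∉ X) (hb : b ∈ X) (h1 : Fl (mp G (inn X a))) (h2 : Fl (mp G (out X b))) : Fl G := by
  refine ⟨?_, fun w => ?_⟩
  · obtain ⟨⟨a₂, a₄, hp⟩, _⟩ := h1
    obtain ⟨φ₂, φ₄, hq, _⟩ := glue_flex hX3 ha hb (h2.2 b) hp
    exact ⟨φ₂, φ₄, hq⟩
  · by_cases hw : w ∈ X
    · exact flex_side hX3 ha hb h1 h2 hw
    · have h3 : (G.cut Xᶜ).card = 3 := by rw [compl_cut]; exact hX3
      rw [inn_compl] at h1
      rw [out_compl] at h2
      exact flex_side (X := Xᶜ) h3 (by simpa using hb) (by simpa using ha) h2 h1 (by simpa using hw)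

end Pool.Agent.H14.HF
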