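import Pool.Agent.H14.HF.Cls

set_option autoImplicit false
set_option linter.unusedSectionVars false

/-!
# `1/2`-flow-pairs: sums along cuts with three edges
-/

namespace Pool.Agent.H14.HF

open Finset Pool.Agent.H160R2.HF Pool.Agent

variable {V E : Type} [Fintype V] [Fintype E] [DecidableEq V] [DecidableEq E]

/-- `G` has a nowhere-zero 4-flow. -/
def NowhereZeroFourFlow (G : OrGraph V E) : Prop :=
  ∃ ψ : E → ℤ, G.IsKFlow 4 ψ ∧ ∀ e, ψ e ≠ 0

/-- Contraction of the vertex set `X` to the vertex `x`: the ends of the edges which are in `X` are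
replaced by `x` (edges with both ends in `X` become loops, the vertices of `X` other than `x` become
isolated). -/
def contract (G : OrGraph V E) (X : Finset V) (x : V) : OrGraph V E :=
  ⟨fun e => if G.t e ∈ X then x else G.t e, fun e => if G.h e ∈ X then x else G.h e⟩

/-- The least class of graphs which contains the graphs with the property `B`, the graphs which have
a nowhere-zero 4-flow, and every graph `G` with a vertex set `X` with exactly three boundary edges
such that the two graphs obtained by contracting `X`, and by contracting the complement of `X`, are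
in the class. -/
inductive Sums (B : OrGraph V E → Prop) : OrGraph V E → Prop
  | basic (G : OrGraph V E) (h : B G) : Sums B G
  | flow (G : OrGraph V E) (h : NowhereZeroFourFlow G) : Sums B G
  | glue (G : OrGraph V E) (X : Finset V) (x y : V) (hx : x ∈ X) (hy : y ∉ X)
      (h3 : (G.cut X).card = 3) (h1 : Sums B (contract G X x)) (h2 : Sums B (contract G Xᶜ y)) :
      Sums B G

theorem flow_fl (G : OrGraph V E) (hb : ∀ X : Finset V, (G.cut X).card ≠ 1)
    (h : NowhereZeroFourFlow G) : Fl G := by
  obtain ⟨ψ, hψ, hz⟩ := h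
  obtain ⟨f, hf, hfz⟩ := H179R3.HF.exists_K4 (G := G) hψ
  have hnz : R129.Hfp.NzK G := ⟨f, fun e he => hz e ((hfz e).1 he), fun x => hf x⟩
  exact ⟨R129.Hfp.pair_of_nz hb hnz, R129.Hfp.flex_of_nz hnz⟩

theorem sums_fl {B : OrGraph V E → Prop}
    (hB : ∀ G, B G → (∀ X : Finset V, (G.cut X).card ≠ 1) → Fl G)
    (G : OrGraph V E) (hG : Sums B G) (hb : ∀ X : Finset V, (G.cut X).card ≠ 1) : Fl G := by
  induction hG with
  | basic G h => exact hB G h hb
  | flow G h => exact flow_fl G hb h
  | glue G X x y hx hy h3 h1 h2 ih1 ih2 =>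
    have e1 : contract G X x = TH499.NF.mp G (out X x) := rfl
    have e2 : contract G Xᶜ y = TH499.NF.mp G (inn X y) := by
      rw [inn_compl]
      rfl
    rw [e1] at ih1
    rw [e2] at ih2
    exact fl_glue h3 hy hx (ih2 (R129.Hfp.cut_mp_ne hb _)) (ih1 (R129.Hfp.cut_mp_ne hb _))

end Pool.Agent.H14.HF
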